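import Pool.Agent.Helper34.FB.Goals

/-!
# Project FB, packet FB-TOHA: from complexes with a derived action to homotopy actions
-/

set_option autoImplicit false

namespace Pool.Agent.Helper4.FB

open IsLocalRing Pool.Agent.Helper26.DA Pool.Agent.Helper34.FB

universe u v w

section
variable {A : Type u} [CommRing A] (F : FC A)

/-- the total space -/
abbrev Tot : Type u := ∀ i : ℕ, Fin (F.r i) → A

/-- the differential on the total space -/
def tD : Tot F →ₗ[A] Tot F := LinearMap.pi fun i => F.d i ∘ₗ LinearMap.proj (i + 1)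

/-- the projections -/
def tPr (i : ℕ) : Tot F →ₗ[A] Tot F :=
  LinearMap.single A (fun i : ℕ => Fin (F.r i) → A) i ∘ₗ LinearMap.proj i

/-- degree zero maps -/
def tF (f : Fam F) : Tot F →ₗ[A] Tot F := LinearMap.pi fun i => f i ∘ₗ LinearMap.proj i

/-- components of a homotopy -/
def tHc (s : ∀ i : ℕ, (Fin (F.r i) → A) →ₗ[A] (Fin (F.r (i + 1)) → A)) :
    ∀ i : ℕ, Tot F →ₗ[A] (Fin (F.r i) → A)
  | 0 => 0
  | (i + 1) => s i ∘ₗ LinearMap.proj i

/-- homotopies on the total space -/
def tH (s : ∀ i : ℕ, (Fin (F.r i) → A) →ₗ[A] (Fin (F.r (i + 1)) → A)) : Tot F →ₗ[A] Tot F :=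
  LinearMap.pi (tHc F s)

variable {F}

theorem tD_apply (z : Tot F) (i : ℕ) : tD F z i = F.d i (z (i + 1)) := rfl

theorem tF_apply (f : Fam F) (z : Tot F) (i : ℕ) : tF F f z i = f i (z i) := rfl

theorem tH_zero (s : ∀ i : ℕ, (Fin (F.r i) → A) →ₗ[A] (Fin (F.r (i + 1)) → A)) (z : Tot F) :
    tH F s z 0 = 0 := rfl

theorem tH_succ (s : ∀ i : ℕ, (Fin (F.r i) → A) →ₗ[A] (Fin (F.r (i + 1)) → A)) (z : Tot F)
    (i : ℕ) : tH F s z (i + 1) = s i (z i) := rfl

theorem tPr_same (i : ℕ) (z : Tot F) : tPr F i z i = z i := by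
  simp [tPr]

theorem tPr_ne {i j : ℕ} (h : j ≠ i) (z : Tot F) : tPr F i z j = 0 := by
  simp [tPr, h]

theorem tPr_pr (i : ℕ) (z : Tot F) : tPr F i (tPr F i z) = tPr F i z := by
  funext j
  by_cases h : j = i
  · subst h; rw [tPr_same, tPr_same]
  · rw [tPr_ne h, tPr_ne h]

theorem tPr_pr_ne (i j : ℕ) (hij : i ≠ j) (z : Tot F) : tPr F i (tPr F j z) = 0 := by
  funext k
  by_cases h : k = i
  · subst h; rw [tPr_same, tPr_ne hij]; rfl
  · rw [tPr_ne h]; rfl

theorem tD_pr (i : ℕ) (z : Tot F) : tD F (tPr F (i + 1) z) = tPr F i (tD F z) := by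
  funext j
  by_cases h : j = i
  · subst h; rw [tPr_same, tD_apply, tD_apply, tPr_same]
  · rw [tPr_ne h, tD_apply, tPr_ne (by omega), map_zero]

theorem tD_pr_zero (z : Tot F) : tD F (tPr F 0 z) = 0 := by
  funext j
  rw [tD_apply, tPr_ne (by omega), map_zero]; rfl

theorem tF_pr (f : Fam F) (i : ℕ) (z : Tot F) : tF F f (tPr F i z) = tPr F i (tF F f z) := by
  funext j
  by_cases h : j = i
  · subst h; rw [tPr_same, tF_apply, tF_apply, tPr_same]
  · rw [tPr_ne h, tF_apply, tPr_ne h, map_zero]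

theorem tH_pr (s : ∀ i : ℕ, (Fin (F.r i) → A) →ₗ[A] (Fin (F.r (i + 1)) → A)) (i : ℕ)
    (z : Tot F) : tH F s (tPr F i z) = tPr F (i + 1) (tH F s z) := by
  funext j
  by_cases h : j = i + 1
  · subst h; rw [tPr_same, tH_succ, tH_succ, tPr_same]
  · rw [tPr_ne h]
    cases j with
    | zero => rfl
    | succ j => rw [tH_succ, tPr_ne (by omega), map_zero]

theorem tDD (z : Tot F) : tD F (tD F z) = 0 := by
  funext j
  rw [tD_apply, tD_apply, F.dd]; rfl

theorem tF_D {f : Fam F} (hf : IsCh F f) (z : Tot F) : tD F (tF F f z) = tF F f (tD F z) := by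
  funext j
  rw [tD_apply, tF_apply, tF_apply, tD_apply, hf]

theorem tHty {f g : Fam F} (h : Hty F f g) : ∃ η : Tot F →ₗ[A] Tot F,
    (∀ i z, η (tPr F i z) = tPr F (i + 1) (η z)) ∧
      ∀ z, tF F f z - tF F g z = tD F (η z) + η (tD F z) := by
  obtain ⟨s, h0, h1⟩ := h
  refine ⟨tH F s, tH_pr s, fun z => ?_⟩
  funext j
  rw [Pi.sub_apply, Pi.add_apply, tF_apply, tF_apply, tD_apply]
  cases j with
  | zero => rw [tH_zero, add_zero, tH_succ, h0]
  | succ j => rw [tH_succ, tH_succ, h1, tD_apply]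

/-- the total space of a bounded complex is a finite product -/
def tEq {p : ℕ} (hp : ∀ i, p < i → F.r i = 0) :
    (∀ i : Fin (p + 1), Fin (F.r i) → A) ≃ₗ[A] Tot F where
  toFun y i := if h : i < p + 1 then y ⟨i, h⟩ else 0
  invFun z i := z i
  map_add' x y := by
    funext i
    by_cases h : i < p + 1
    · simp only [dif_pos h, Pi.add_apply]
    · simp only [dif_neg h, Pi.add_apply, add_zero]
  map_smul' c y := by
    funext i
    by_cases h : i < p + 1
    · simp only [dif_pos h, Pi.smul_apply, RingHom.id_apply]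
    · simp only [dif_neg h, Pi.smul_apply, RingHom.id_apply, smul_zero]
  left_inv y := by
    funext i
    have h : (i : ℕ) < p + 1 := i.2
    simp [h]
  right_inv z := by
    funext i
    by_cases h : i < p + 1
    · simp [h]
    · have h0 : F.r i = 0 := hp i (by omega)
      have : IsEmpty (Fin (F.r i)) := by rw [h0]; exact Fin.isEmpty'
      exact Subsingleton.elim _ _

/-- the homotopy action on the total space -/
def tHA {B : Type v} [CommRing B] [Algebra A B] (act : DAct A B F) {p : ℕ}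
    (hp : ∀ i, p < i → F.r i = 0) : HA.{u, v, u} A B p where
  M := Tot F
  finM := Module.Finite.equiv (tEq hp)
  freeM := Module.Free.of_equiv (tEq hp)
  pr := tPr F
  pr_pr := tPr_pr
  pr_ne := tPr_pr_ne
  pr_top i hi z := by
    funext j
    by_cases h : j = i
    · subst h
      have : IsEmpty (Fin (F.r j)) := by rw [hp j hi]; exact Fin.isEmpty'
      exact Subsingleton.elim _ _
    · rw [tPr_ne h]; rfl
  pr_sum z := by
    funext j
    rw [Finset.sum_apply]
    by_cases h : j < p + 1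
    · rw [Finset.sum_eq_single j, tPr_same]
      · intro i _ hij
        exact tPr_ne (Ne.symm hij) z
      · intro hj
        exact absurd (Finset.mem_range.2 h) hj
    · have : IsEmpty (Fin (F.r j)) := by rw [hp j (by omega)]; exact Fin.isEmpty'
      exact Subsingleton.elim _ _
  d := tD F
  dd := tDD
  d_pr := tD_pr
  d_zero := tD_pr_zero
  ρ b := tF F (act.ρ b)
  ρ_pr b := tF_pr (act.ρ b)
  ρ_d b := tF_D (act.ch b)
  one := by
    obtain ⟨η, h1, h2⟩ := tHty act.one
    exact ⟨η, h1, fun z => by rw [← h2]; rfl⟩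
  add b c := by
    obtain ⟨η, h1, h2⟩ := tHty (act.add b c)
    exact ⟨η, h1, fun z => by rw [← h2]; rfl⟩
  mul b c := by
    obtain ⟨η, h1, h2⟩ := tHty (act.mul b c)
    exact ⟨η, h1, fun z => by rw [← h2]; rfl⟩
  alg a := by
    obtain ⟨η, h1, h2⟩ := tHty (act.alg a)
    exact ⟨η, h1, fun z => by rw [← h2]; rfl⟩

section cokernel
variable {B : Type v} [CommRing B] [Algebra A B] (act : DAct A B F)

/-- the cokernel -/
abbrev Cok (F : FC A) : Type u := (Fin (F.r 0) → A) ⧸ LinearMap.range (F.d 0)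

theorem range_le (f : Fam F) (hf : IsCh F f) :
    LinearMap.range (F.d 0) ≤ (LinearMap.range (F.d 0)).comap (f 0) := by
  rintro _ ⟨z, rfl⟩
  exact ⟨f 1 z, hf 0 z⟩

/-- the action on the cokernel -/
def cAct (b : B) : Cok F →ₗ[A] Cok F :=
  Submodule.mapQ _ _ (act.ρ b 0) (range_le _ (act.ch b))

theorem cAct_mk (b : B) (z : Fin (F.r 0) → A) :
    cAct act b ((LinearMap.range (F.d 0)).mkQ z) = (LinearMap.range (F.d 0)).mkQ (act.ρ b 0 z) :=
  rfl

theorem mk_eq_of_hty {f g : Fam F} (h : Hty F f g) (z : Fin (F.r 0) → A) :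
    (LinearMap.range (F.d 0)).mkQ (f 0 z) = (LinearMap.range (F.d 0)).mkQ (g 0 z) := by
  obtain ⟨s, h0, -⟩ := h
  rw [← sub_eq_zero, ← map_sub, h0]
  exact (Submodule.Quotient.mk_eq_zero _).2 ⟨_, rfl⟩

/-- the module structure on the cokernel -/
@[reducible] def cMod : Module B (Cok F) where
  smul b n := cAct act b n
  one_smul n := by
    obtain ⟨z, rfl⟩ := Submodule.mkQ_surjective _ n
    change cAct act 1 _ = _
    rw [cAct_mk]
    exact mk_eq_of_hty act.one z
  mul_smul b c n := by
    obtain ⟨z, rfl⟩ := Submodule.mkQ_surjective _ n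
    change cAct act (b * c) _ = cAct act b (cAct act c _)
    rw [cAct_mk, cAct_mk, cAct_mk]
    exact mk_eq_of_hty (act.mul b c) z
  smul_zero b := map_zero (cAct act b)
  smul_add b := map_add (cAct act b)
  add_smul b c n := by
    obtain ⟨z, rfl⟩ := Submodule.mkQ_surjective _ n
    change cAct act (b + c) _ = cAct act b _ + cAct act c _
    rw [cAct_mk, cAct_mk, cAct_mk, ← map_add]
    exact mk_eq_of_hty (act.add b c) z
  zero_smul n := by
    obtain ⟨z, rfl⟩ := Submodule.mkQ_surjective _ n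
    change cAct act 0 _ = _
    have h := mk_eq_of_hty (act.alg 0) z
    rw [map_zero] at h
    rw [cAct_mk, h]
    simp

theorem cMod_alg (a : A) (n : Cok F) : cAct act (algebraMap A B a) n = a • n := by
  obtain ⟨z, rfl⟩ := Submodule.mkQ_surjective _ n
  rw [cAct_mk, ← map_smul]
  exact mk_eq_of_hty (act.alg a) z

end cokernel

end

theorem gTOHA : Pool.Agent.Helper34.FB.G_TOHA.{u, v, w} := by
  intro hFREE A _ _ _ B _ _ _ _ F act p hp hne s0 b hb hdim R _ _ _ _ _ t1 t2 hm hnp q hq
  let _ : Module B (Cok F) := cMod act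
  have : IsScalarTower A B (Cok F) := by
    refine ⟨fun a b n => ?_⟩
    change cAct act (a • b) n = a • cAct act b n
    rw [← cMod_alg act a, Algebra.smul_def]
    exact mul_smul (algebraMap A B a) b n
  have : Nontrivial (Cok F) := Submodule.Quotient.nontrivial_iff.2 hne
  have hH0 : IsH0 (tHA act hp) (N := Cok F)
      ((LinearMap.range (F.d 0)).mkQ ∘ₗ LinearMap.proj 0) := by
    refine ⟨fun b z => ?_, fun n => ?_, fun z => ?_, fun i z => ?_⟩
    · change (LinearMap.range (F.d 0)).mkQ (tF F (act.ρ b) (tPr F 0 z) 0) =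
        cAct act b ((LinearMap.range (F.d 0)).mkQ (tPr F 0 z 0))
      rw [tF_apply, cAct_mk]
    · obtain ⟨z, rfl⟩ := Submodule.mkQ_surjective _ n
      refine ⟨LinearMap.single A (fun i : ℕ => Fin (F.r i) → A) 0 z, ?_⟩
      change (LinearMap.range (F.d 0)).mkQ
        (tPr F 0 (LinearMap.single A (fun i : ℕ => Fin (F.r i) → A) 0 z) 0) = _
      rw [tPr_same]
      simp
    · change (LinearMap.range (F.d 0)).mkQ (tPr F 0 z 0) = 0 ↔
        ∃ y : Tot F, tPr F 0 z = tD F (tPr F 1 y)
      rw [tPr_same]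
      constructor
      · intro h
        obtain ⟨y, hy⟩ := (Submodule.Quotient.mk_eq_zero _).1 h
        refine ⟨LinearMap.single A (fun i : ℕ => Fin (F.r i) → A) 1 y, ?_⟩
        funext j
        rw [tD_apply]
        cases j with
        | zero =>
          rw [tPr_same, tPr_same, ← hy]
          simp
        | succ j => rw [tPr_ne (by omega), tPr_ne (by omega), map_zero]
      · rintro ⟨y, hy⟩
        have h := congrFun hy 0
        rw [tPr_same, tD_apply, tPr_same] at h
        rw [h]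
        exact (Submodule.Quotient.mk_eq_zero _).2 ⟨_, rfl⟩
    · change (LinearMap.range (F.d 0)).mkQ (tPr F (i + 1) z 0) = 0
      rw [tPr_ne (by omega), map_zero]
  have hfree : Module.Free B (Cok F) :=
    hFREE A B p (tHA act hp) (Cok F) _ hH0 s0 b hb hdim R t1 t2 hm hnp q hq
  have : Module.Finite B (Cok F) := Module.Finite.of_restrictScalars_finite A B (Cok F)
  refine ⟨Module.finrank B (Cok F), (Module.finBasis B (Cok F)).equivFun.symm.toAddEquiv, ?_⟩
  intro c x z hz
  change (Module.finBasis B (Cok F)).equivFun.symm (c • x) = _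
  rw [map_smul]
  change (Module.finBasis B (Cok F)).equivFun.symm x = _ at hz
  rw [hz]
  rfl

end Pool.Agent.Helper4.FB
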